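import Pool.Agent.H.MP_d64a6e_ag.Immersion

set_option autoImplicit false

namespace Pool.Agent.H.MP_d64a6e_ag

open Polynomial

theorem xE_transcendental : Transcendental ℂ xE := by
  intro h
  apply xS_transcendental
  rw [← fS_0_x]
  exact h.algHom (fS 0)

theorem xE_ne_zero : xE ≠ 0 := by
  intro h
  apply xE_transcendental
  rw [h]
  exact isAlgebraic_zero

theorem adjoin_xyE : IntermediateField.adjoin ℂ ({xE, yE} : Set FE) = ⊤ := by
  set L := IntermediateField.adjoin ℂ ({xE, yE} : Set FE) with hL
  have hxL : xE ∈ L := IntermediateField.subset_adjoin _ _ (by simp)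
  have hyL : yE ∈ L := IntermediateField.subset_adjoin _ _ (by simp)
  have h1 : ∀ p : ℂ[X], algebraMap E₂.toAffine.CoordinateRing FE
      (AdjoinRoot.of E₂.toAffine.polynomial p) ∈ L := by
    intro p
    induction p using Polynomial.induction_on' with
    | add p q hp hq => rw [map_add, map_add]; exact L.add_mem hp hq
    | monomial n c =>
      rw [← C_mul_X_pow_eq_monomial, map_mul, map_mul, map_pow, map_pow]
      refine L.mul_mem ?_ (L.pow_mem hxL n)
      exact L.algebraMap_mem c
  have h2 : ∀ u : E₂.toAffine.CoordinateRing, algebraMap E₂.toAffine.CoordinateRing FE u ∈ L := by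
    intro u
    induction u using AdjoinRoot.induction_on with
    | ih p =>
      induction p using Polynomial.induction_on' with
      | add p q hp hq => rw [map_add, map_add]; exact L.add_mem hp hq
      | monomial n c =>
        rw [← C_mul_X_pow_eq_monomial, map_mul, map_mul, map_pow, map_pow]
        exact L.mul_mem (h1 c) (L.pow_mem hyL n)
  rw [eq_top_iff]
  intro z _
  obtain ⟨a, b, hb, rfl⟩ := IsFractionRing.div_surjective (A := E₂.toAffine.CoordinateRing) z
  exact L.div_mem (h2 a) (h2 b)

/-- the local parameters `1/x` and `y/x²` at infinity -/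
noncomputable def sE : FE := xE⁻¹
/-- the local parameter `y/x²` at infinity -/
noncomputable def wE : FE := xE⁻¹ ^ 2 * yE

theorem wE_sq : wE ^ 2 = sE + 2 * sE ^ 4 := by
  have h := xE_ne_zero
  rw [wE, sE, mul_pow, yE_sq]
  field_simp

theorem adjoin_swE : IntermediateField.adjoin ℂ ({sE, wE} : Set FE) = ⊤ := by
  rw [eq_top_iff, ← adjoin_xyE, IntermediateField.adjoin_le_iff]
  set L := IntermediateField.adjoin ℂ ({sE, wE} : Set FE) with hL
  have hsL : sE ∈ L := IntermediateField.subset_adjoin _ _ (by simp)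
  have hxL : xE ∈ L := by
    have := L.inv_mem hsL
    rwa [sE, inv_inv] at this
  have hwL : wE ∈ L := IntermediateField.subset_adjoin _ _ (by simp)
  intro s hs
  simp only [Set.mem_insert_iff, Set.mem_singleton_iff] at hs
  rcases hs with rfl | rfl
  · exact hxL
  · have h := xE_ne_zero
    have : yE = wE * xE ^ 2 := by
      rw [wE]
      field_simp
    rw [SetLike.mem_coe, this]
    exact L.mul_mem hwL (L.pow_mem hxL 2)

/-- At a point where `x` has a pole, `1/x` and `y/x²` vanish. -/
theorem infinite_values (P : Point FE) (hP : xE ∉ P.ring) :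
    sE ∈ P.ring.nonunits ∧ wE ∈ P.ring.nonunits := by
  have h1 : sE ∈ P.ring.nonunits := by
    rw [sE, ValuationSubring.inv_mem_nonunits_iff]
    exact Or.inr hP
  refine ⟨h1, ?_⟩
  have hsA := mem_of_nonunit _ h1
  have h2 : (2 : FE) ∈ P.ring := by simpa using P.const 2
  have h3 : wE * wE ∈ P.ring.nonunits := by
    have : wE * wE = (1 + 2 * sE ^ 3) * sE := by linear_combination wE_sq
    rw [this]
    exact nonunits_mul_mem _ (P.ring.add_mem _ _ P.ring.one_mem
      (P.ring.mul_mem _ _ h2 (P.ring.toSubring.pow_mem hsA 3))) h1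
  have hwA : wE ∈ P.ring := by
    apply mem_of_sq
    rw [sq]
    exact mem_of_nonunit _ h3
  rcases nonunit_or_of_mul _ hwA hwA h3 with h | h <;> exact h

theorem infinite_le (P Q : Point FE) (hP : xE ∉ P.ring) (hQ : xE ∉ Q.ring) :
    P.ring ≤ Q.ring := by
  obtain ⟨hsP, hwP⟩ := infinite_values P hP
  obtain ⟨hsQ, hwQ⟩ := infinite_values Q hQ
  have hSP : ∀ s ∈ ({sE, wE} : Set FE), s ∈ P.ring.nonunits := by
    intro s hs
    simp only [Set.mem_insert_iff, Set.mem_singleton_iff] at hs
    rcases hs with rfl | rfl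
    · exact hsP
    · exact hwP
  have hSQ : ∀ s ∈ ({sE, wE} : Set FE), s ∈ Q.ring.nonunits := by
    intro s hs
    simp only [Set.mem_insert_iff, Set.mem_singleton_iff] at hs
    rcases hs with rfl | rfl
    · exact hsQ
    · exact hwQ
  refine le_of_chart P.ring Q.ring P.const Q.const ({sE, wE} : Set FE)
    (fun s hs => mem_of_nonunit _ (hSP s hs)) (fun s hs => mem_of_nonunit _ (hSQ s hs)) ?_ ?_
  · intro s hs
    exact ⟨0, by rw [map_zero, sub_zero]; exact hSP s hs, by rw [map_zero, sub_zero]; exact hSQ s hs⟩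
  · intro a ha
    have hsR : sE ∈ Algebra.adjoin ℂ ({sE, wE} : Set FE) := Algebra.subset_adjoin (by simp)
    have hwR : wE ∈ Algebra.adjoin ℂ ({sE, wE} : Set FE) := Algebra.subset_adjoin (by simp)
    refine exists_eq_div P.ring P.const _ (Set.toFinite _)
      (fun s hs => mem_of_nonunit _ (hSP s hs)) adjoin_swE wE hwR hwP ?_ a ha
    intro s hs
    simp only [Set.mem_insert_iff, Set.mem_singleton_iff] at hs
    rcases hs with rfl | rfl
    · refine ⟨0, 1 + 2 * sE ^ 3, ?_, ?_, wE, hwR, ?_⟩
      · have h2 : (2 : FE) ∈ Algebra.adjoin ℂ ({sE, wE} : Set FE) := by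
          simpa using Subalgebra.algebraMap_mem (Algebra.adjoin ℂ ({sE, wE} : Set FE)) (2 : ℂ)
        exact Subalgebra.add_mem _ (Subalgebra.one_mem _)
          (Subalgebra.mul_mem _ h2 (Subalgebra.pow_mem _ hsR 3))
      · refine not_nonunit_of_value P (e := 1) one_ne_zero ?_
        have h2 : (2 : FE) ∈ P.ring := by simpa using P.const 2
        have : 1 + 2 * sE ^ 3 - algebraMap ℂ FE 1 = (2 * sE ^ 2) * sE := by
          rw [map_one]; ring
        rw [this]
        exact nonunits_mul_mem _ (P.ring.mul_mem _ _ h2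
          (P.ring.toSubring.pow_mem (mem_of_nonunit _ hsP) 2)) hsP
      · rw [map_zero]
        linear_combination -wE_sq
    · refine ⟨0, 1, Subalgebra.one_mem _, ?_, 1, Subalgebra.one_mem _, by simp⟩
      simpa using const_not_nonunit P.ring P.const one_ne_zero

theorem exists_infinite : ∃ P : Point FE, xE ∉ P.ring := by
  set R : Subring FE := (Algebra.adjoin ℂ ({sE} : Set FE)).toSubring with hR
  have hsR : sE ∈ R := Algebra.subset_adjoin (by simp)
  have hI : Ideal.span ({⟨sE, hsR⟩} : Set R) ≠ ⊤ := by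
    rw [Ne, Ideal.span_singleton_eq_top]
    intro h
    obtain ⟨⟨r, hr⟩, hr1⟩ := isUnit_iff_exists_inv.1 h
    have hr1' : sE * r = 1 := congrArg Subtype.val hr1
    have hr' : r ∈ Algebra.adjoin ℂ ({sE} : Set FE) := hr
    rw [Algebra.adjoin_singleton_eq_range_aeval] at hr'
    obtain ⟨p, rfl⟩ := hr'
    have htr : Transcendental ℂ sE := by
      intro h'
      apply xE_transcendental
      simpa [sE] using h'.inv
    have h2 : aeval sE (X * p - 1 : ℂ[X]) = 0 := by
      rw [map_sub, map_mul, aeval_X, map_one, sub_eq_zero]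
      exact hr1'
    have h3 := (transcendental_iff.1 htr) _ h2
    have h4 := congrArg (fun p : ℂ[X] => p.eval 0) h3
    simp at h4
  obtain ⟨B, hB, hBn⟩ := Ideal.image_subset_nonunits_valuationSubring _ hI
  have hsB : sE ∈ B.nonunits := hBn ⟨⟨sE, hsR⟩, Ideal.subset_span rfl, rfl⟩
  have hxB : xE ∉ B := by
    rw [sE, ValuationSubring.inv_mem_nonunits_iff] at hsB
    exact hsB.resolve_left xE_ne_zero
  refine ⟨⟨B, fun c => hB (Subalgebra.algebraMap_mem _ c), ?_⟩, hxB⟩
  rintro rfl
  exact hxB trivial

open Classical in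
/-- Local equations of the divisor of poles of `x` on `E₂` (twice the origin). -/
noncomputable def genE (P : Point FE) : FEˣ :=
  if xE ∈ P.ring then 1 else (Units.mk0 xE xE_ne_zero)⁻¹

theorem genE_pos {P : Point FE} (h : xE ∈ P.ring) : genE P = 1 := by
  rw [genE, if_pos h]

theorem genE_neg {P : Point FE} (h : xE ∉ P.ring) : genE P = (Units.mk0 xE xE_ne_zero)⁻¹ := by
  rw [genE, if_neg h]

/-- The divisor of poles of `x` on `E₂`: twice the origin. -/
noncomputable def divE : EffectiveDivisor FE where
  gen := genE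
  finite := by
    apply Set.Subsingleton.finite
    intro P hP Q hQ
    have key : ∀ P : Point FE, genE P ∉ P.ring.unitGroup → xE ∉ P.ring := by
      intro P hP h
      apply hP
      rw [genE_pos h]
      exact P.ring.unitGroup.one_mem
    have h1 := le_antisymm (infinite_le P Q (key P hP) (key Q hQ))
      (infinite_le Q P (key Q hQ) (key P hP))
    cases P; cases Q; cases h1; rfl
  regular := by
    intro P
    by_cases h : xE ∈ P.ring
    · rw [genE_pos h]; exact P.ring.one_mem
    · rw [genE_neg h]
      simpa using (P.ring.mem_or_inv_mem xE).resolve_left h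
  nonzero := by
    obtain ⟨P, hP⟩ := exists_infinite
    refine ⟨P, ?_⟩
    rw [genE_neg hP]
    intro h
    rw [inv_mem_iff, ValuationSubring.mem_unitGroup_iff] at h
    apply hP
    rw [← ValuationSubring.valuation_le_one_iff]
    exact h.le

theorem isTorsion_one {K : Type} [Field K] [Algebra ℂ K] (v : Point K → Kˣ)
    (h : ∃ h : Kˣ, ∀ A : Point K, v A * h ∈ A.ring.unitGroup) : IsTorsion v := by
  obtain ⟨h, hh⟩ := h
  exact ⟨1, one_pos, h, fun A => by rw [pow_one]; exact hh A⟩

theorem pullback_eq (i : Fin 2) (A : Point FS) :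
    (fS i xE ∈ A.ring ∧ pullback (fS i) genE A = 1) ∨
    (fS i xE ∉ A.ring ∧ ((pullback (fS i) genE A : FSˣ) : FS) = (fS i xE)⁻¹) := by
  by_cases h : fS i xE ∈ A.ring
  · left
    refine ⟨h, ?_⟩
    rw [pullback, genE_pos (P := A.map (fS i)) h, map_one]
  · right
    refine ⟨h, ?_⟩
    rw [pullback, genE_neg (P := A.map (fS i)) h]
    simp

/-- The pullbacks of `O(2·0)` under the two projections are isomorphic. -/
theorem pullback_unit (A : Point FS) :
    pullback (fS 0) genE A / pullback (fS 1) genE A * Units.mk0 xS xS_ne_zero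
      ∈ A.ring.unitGroup := by
  have hx := xS_ne_zero
  have h0 := pullback_eq 0 A
  have h1 := pullback_eq 1 A
  rw [fS_0_x] at h0
  rw [fS_1_x] at h1
  set u := pullback (fS 0) genE A with hu
  set v := pullback (fS 1) genE A with hv
  rw [ValuationSubring.mem_unitGroup_iff]
  rcases h0 with ⟨hA0, h0⟩ | ⟨hA0, h0⟩
  · rcases h1 with ⟨hA1, h1⟩ | ⟨hA1, h1⟩
    · rw [h0, h1]
      simp only [div_one, one_mul, Units.val_mk0]
      apply le_antisymm
      · rwa [ValuationSubring.valuation_le_one_iff]
      · rw [← ValuationSubring.valuation_le_one_iff, map_inv₀] at hA1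
        exact (inv_le_one₀ (by simpa [zero_lt_iff] using hx)).1 hA1
    · have : ((u / v * Units.mk0 xS hx : FSˣ) : FS) = 1 := by
        rw [h0]
        simp only [one_div, Units.val_mul, Units.val_inv_eq_inv_val, h1, Units.val_mk0, inv_inv]
        exact inv_mul_cancel₀ hx
      rw [this, map_one]
  · rcases h1 with ⟨hA1, h1⟩ | ⟨hA1, h1⟩
    · have : ((u / v * Units.mk0 xS hx : FSˣ) : FS) = 1 := by
        rw [h1]
        simp only [div_one, Units.val_mul, h0, Units.val_mk0]
        exact inv_mul_cancel₀ hx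
      rw [this, map_one]
    · rcases A.ring.mem_or_inv_mem xS with h | h
      · exact absurd h hA0
      · exact absurd h hA1

theorem torsion_S (i j : Fin 2) :
    IsTorsion (pullback (fS i) divE.gen / pullback (fS j) divE.gen) := by
  apply isTorsion_one
  fin_cases i <;> fin_cases j
  · exact ⟨1, fun A => by simp⟩
  · exact ⟨Units.mk0 xS xS_ne_zero, pullback_unit⟩
  · refine ⟨(Units.mk0 xS xS_ne_zero)⁻¹, fun A => ?_⟩
    have := A.ring.unitGroup.inv_mem (pullback_unit A)
    rw [mul_inv, inv_div] at this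
    exact this
  · exact ⟨1, fun A => by simp⟩

end Pool.Agent.H.MP_d64a6e_ag
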