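import Pool.Agent.H.MP_d64a6e_ag.Defs

set_option autoImplicit false

namespace Pool.Agent.H.MP_d64a6e_ag

open Polynomial

set_option linter.unusedSectionVars false

variable {K : Type} [Field K] [Algebra ℂ K]

/-- If the coordinate ring `R = ℂ[S]` of an affine chart has, at the centre of the valuation ring
`A`, a maximal ideal which is locally generated by one element `t`, then `A` is the local ring. -/
theorem exists_eq_div_of_principal (A : ValuationSubring K) (hc : ∀ c : ℂ, algebraMap ℂ K c ∈ A)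
    (S : Set K) (hfin : S.Finite) (hS : ∀ s ∈ S, s ∈ A)
    (hgen : IntermediateField.adjoin ℂ S = ⊤) (t : K) (htR : t ∈ Algebra.adjoin ℂ S)
    (ht : t ∈ A.nonunits)
    (hprin : ∀ r ∈ Algebra.adjoin ℂ S, r ∈ A.nonunits →
      ∃ s ∈ Algebra.adjoin ℂ S, s ∉ A.nonunits ∧ ∃ r' ∈ Algebra.adjoin ℂ S, r * s = t * r')
    (a : K) (ha : a ∈ A) :
    ∃ r ∈ Algebra.adjoin ℂ S, ∃ s ∈ Algebra.adjoin ℂ S, s ∉ A.nonunits ∧ a = r / s := by
  classical
  set R : Subalgebra ℂ K := Algebra.adjoin ℂ S with hR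
  have hRA : ∀ r ∈ R, r ∈ A := by
    intro r hr
    induction hr using Algebra.adjoin_induction with
    | mem x hx => exact hS x hx
    | algebraMap c => exact hc c
    | add x y _ _ hx hy => exact A.add_mem _ _ hx hy
    | mul x y _ _ hx hy => exact A.mul_mem _ _ hx hy
  let ι : R →+* A := (algebraMap R K).codRestrict A.toSubring (fun r => hRA _ r.2)
  let m : Ideal R := (IsLocalRing.maximalIdeal A).comap ι
  have hm : m.IsPrime := Ideal.comap_isPrime _ _
  have hmem : ∀ r : R, r ∈ m ↔ (r : K) ∈ A.nonunits := by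
    intro r
    rw [Ideal.mem_comap, ← ValuationSubring.coe_mem_nonunits_iff]
    rfl
  have hN : IsNoetherianRing R := by
    have : R.FG := ⟨hfin.toFinset, by rw [hfin.coe_toFinset]⟩
    have h2 : Algebra.FiniteType ℂ R := (Subalgebra.fg_iff_finiteType R).1 this
    exact Algebra.FiniteType.isNoetherianRing ℂ R
  have hNm : IsNoetherianRing (Localization.AtPrime m) :=
    IsLocalization.isNoetherianRing m.primeCompl _ hN
  have hD : IsDomain (Localization.AtPrime m) :=
    IsLocalization.isDomain_localization m.primeCompl_le_nonZeroDivisors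
  have hinj : Function.Injective (algebraMap R (Localization.AtPrime m)) :=
    IsLocalization.injective _ m.primeCompl_le_nonZeroDivisors
  have hP : (IsLocalRing.maximalIdeal (Localization.AtPrime m)).IsPrincipal := by
    refine ⟨algebraMap R _ ⟨t, htR⟩, ?_⟩
    rw [← Localization.AtPrime.map_eq_maximalIdeal]
    apply le_antisymm
    · rw [Ideal.map_le_iff_le_comap]
      intro r hr
      obtain ⟨s, hs, hsm, r', hr', h⟩ := hprin r r.2 ((hmem r).1 hr)
      rw [Ideal.mem_comap, Ideal.submodule_span_eq, Ideal.mem_span_singleton]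
      have hu : IsUnit (algebraMap R (Localization.AtPrime m) ⟨s, hs⟩) :=
        IsLocalization.map_units (Localization.AtPrime m)
          (⟨⟨s, hs⟩, fun h' => hsm ((hmem _).1 h')⟩ : m.primeCompl)
      rw [← hu.dvd_mul_right, ← map_mul]
      refine ⟨algebraMap R _ ⟨r', hr'⟩, ?_⟩
      rw [← map_mul]
      congr 1
      exact Subtype.ext h
    · rw [Ideal.submodule_span_eq, Ideal.span_singleton_le_iff_mem]
      exact Ideal.mem_map_of_mem _ ((hmem _).2 ht)
  have hV : ValuationRing (Localization.AtPrime m) :=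
    ((tfae_of_isNoetherianRing_of_isLocalRing_of_isDomain (Localization.AtPrime m)).out 4 1).1 hP
  have hdvd : ∀ p q : R, algebraMap R (Localization.AtPrime m) q ∣ algebraMap R _ p →
      ∃ e s : R, s ∉ m ∧ p * s = q * e := by
    rintro p q ⟨e, he⟩
    obtain ⟨e₁, s₁, rfl⟩ := IsLocalization.exists_mk'_eq m.primeCompl e
    refine ⟨e₁, s₁, s₁.2, ?_⟩
    apply hinj
    rw [map_mul, map_mul, he, mul_assoc, IsLocalization.mk'_spec]
  have hatop : a ∈ IntermediateField.adjoin ℂ S := by rw [hgen]; trivial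
  obtain ⟨p, hp, q, hq, hpq⟩ := IntermediateField.mem_adjoin_iff_div.1 hatop
  by_cases hq0 : q = 0
  · refine ⟨0, R.zero_mem, 1, R.one_mem, ?_, ?_⟩
    · rw [ValuationSubring.mem_nonunits_iff_or]
      rintro (h | h)
      · exact one_ne_zero h
      · rw [inv_one] at h
        exact h A.one_mem
    · rw [hpq, hq0]; simp
  rcases ValuationRing.dvd_total (algebraMap R (Localization.AtPrime m) ⟨q, hq⟩)
    (algebraMap R (Localization.AtPrime m) ⟨p, hp⟩) with h | h
  · obtain ⟨e, s, hs, hes⟩ := hdvd _ _ h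
    have hes' : p * (s : K) = q * (e : K) := congrArg Subtype.val hes
    refine ⟨e, e.2, s, s.2, fun h' => hs ((hmem s).2 h'), ?_⟩
    have hs0 : (s : K) ≠ 0 := by
      intro h0
      apply hs
      rw [hmem, h0]
      exact A.nonunits.zero_mem
    rw [hpq, div_eq_div_iff hq0 hs0, hes', mul_comm]
  · obtain ⟨e, s, hs, hes⟩ := hdvd _ _ h
    have hes' : q * (s : K) = p * (e : K) := congrArg Subtype.val hes
    have hs0 : (s : K) ≠ 0 := by
      intro h0
      apply hs
      rw [hmem, h0]
      exact A.nonunits.zero_mem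
    have hae : a * e = s := by
      rw [hpq, div_mul_eq_mul_div, ← hes', mul_div_assoc, mul_comm q, div_mul_cancel₀ _ hq0]
    have he0 : (e : K) ≠ 0 := by
      intro h0
      rw [h0, mul_zero] at hae
      exact hs0 hae.symm
    by_cases hem : e ∈ m
    · exfalso
      apply hs
      rw [hmem, ← hae]
      have := (IsLocalRing.maximalIdeal A).mul_mem_left ⟨a, ha⟩ hem
      rw [← ValuationSubring.coe_mem_nonunits_iff] at this
      exact this
    · refine ⟨s, s.2, e, e.2, fun h' => hem ((hmem e).2 h'), ?_⟩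
      rw [← hae, mul_div_cancel_right₀ _ he0]

theorem nonunits_mul_mem (A : ValuationSubring K) {a b : K} (ha : a ∈ A) (hb : b ∈ A.nonunits) :
    a * b ∈ A.nonunits := by
  rw [ValuationSubring.mem_nonunits_iff] at *
  rw [map_mul]
  rw [← ValuationSubring.valuation_le_one_iff] at ha
  calc A.valuation a * A.valuation b ≤ 1 * A.valuation b := by gcongr
    _ = A.valuation b := one_mul _
    _ < 1 := hb

theorem mem_of_nonunit (A : ValuationSubring K) {a : K} (ha : a ∈ A.nonunits) : a ∈ A :=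
  A.nonunits_le ha

theorem nonunit_or_of_mul (A : ValuationSubring K) {a b : K} (ha : a ∈ A) (hb : b ∈ A)
    (h : a * b ∈ A.nonunits) : a ∈ A.nonunits ∨ b ∈ A.nonunits := by
  by_contra hcon
  push Not at hcon
  rw [ValuationSubring.mem_nonunits_iff, ValuationSubring.mem_nonunits_iff] at hcon
  rw [ValuationSubring.mem_nonunits_iff, map_mul] at h
  rw [← ValuationSubring.valuation_le_one_iff] at ha hb
  have h1 : A.valuation a = 1 := le_antisymm ha (not_lt.1 hcon.1)
  have h2 : A.valuation b = 1 := le_antisymm hb (not_lt.1 hcon.2)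
  rw [h1, h2, one_mul] at h
  exact lt_irrefl _ h

theorem inv_mem_of_not_nonunit (A : ValuationSubring K) {a : K} (ha : a ∉ A.nonunits) :
    a ≠ 0 ∧ a⁻¹ ∈ A := by
  rw [ValuationSubring.mem_nonunits_iff_or] at ha
  push Not at ha
  exact ha

theorem const_not_nonunit (A : ValuationSubring K) (hc : ∀ c : ℂ, algebraMap ℂ K c ∈ A) {c : ℂ}
    (h : c ≠ 0) : algebraMap ℂ K c ∉ A.nonunits := by
  rw [ValuationSubring.mem_nonunits_iff_or]
  push Not
  refine ⟨by simpa using h, ?_⟩
  rw [← map_inv₀]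
  exact hc _

theorem adjoin_le (A : ValuationSubring K) (hc : ∀ c : ℂ, algebraMap ℂ K c ∈ A)
    (S : Set K) (hS : ∀ s ∈ S, s ∈ A) (r : K) (hr : r ∈ Algebra.adjoin ℂ S) : r ∈ A := by
  induction hr using Algebra.adjoin_induction with
  | mem x hx => exact hS x hx
  | algebraMap c => exact hc c
  | add x y _ _ hx hy => exact A.add_mem _ _ hx hy
  | mul x y _ _ hx hy => exact A.mul_mem _ _ hx hy

/-- Criterion in terms of the coordinate functions. -/
theorem exists_eq_div (A : ValuationSubring K) (hc : ∀ c : ℂ, algebraMap ℂ K c ∈ A)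
    (S : Set K) (hfin : S.Finite) (hS : ∀ s ∈ S, s ∈ A)
    (hgen : IntermediateField.adjoin ℂ S = ⊤) (t : K) (htR : t ∈ Algebra.adjoin ℂ S)
    (ht : t ∈ A.nonunits)
    (hres : ∀ s ∈ S, ∃ c : ℂ, ∃ u ∈ Algebra.adjoin ℂ S, u ∉ A.nonunits ∧
      ∃ v ∈ Algebra.adjoin ℂ S, (s - algebraMap ℂ K c) * u = t * v)
    (a : K) (ha : a ∈ A) :
    ∃ r ∈ Algebra.adjoin ℂ S, ∃ s ∈ Algebra.adjoin ℂ S, s ∉ A.nonunits ∧ a = r / s := by
  refine exists_eq_div_of_principal A hc S hfin hS hgen t htR ht ?_ a ha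
  have hRA := adjoin_le A hc S hS
  have key : ∀ r ∈ Algebra.adjoin ℂ S, ∃ e : ℂ, ∃ u ∈ Algebra.adjoin ℂ S, u ∉ A.nonunits ∧
      ∃ v ∈ Algebra.adjoin ℂ S, (r - algebraMap ℂ K e) * u = t * v := by
    intro r hr
    induction hr using Algebra.adjoin_induction with
    | mem x hx => exact hres x hx
    | algebraMap c =>
      refine ⟨c, 1, Subalgebra.one_mem _, ?_, 0, Subalgebra.zero_mem _, by simp⟩
      simpa using const_not_nonunit A hc (one_ne_zero)
    | add x y _ _ hx hy =>
      obtain ⟨e, u, hu, hun, v, hv, h⟩ := hx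
      obtain ⟨e', u', hu', hun', v', hv', h'⟩ := hy
      refine ⟨e + e', u * u', Subalgebra.mul_mem _ hu hu', ?_, v * u' + v' * u,
        Subalgebra.add_mem _ (Subalgebra.mul_mem _ hv hu') (Subalgebra.mul_mem _ hv' hu), ?_⟩
      · intro hcon
        rcases nonunit_or_of_mul A (hRA _ hu) (hRA _ hu') hcon with h1 | h1
        · exact hun h1
        · exact hun' h1
      · rw [map_add]
        linear_combination u' * h + u * h'
    | mul x y hxm hym hx hy =>
      obtain ⟨e, u, hu, hun, v, hv, h⟩ := hx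
      obtain ⟨e', u', hu', hun', v', hv', h'⟩ := hy
      refine ⟨e * e', u * u', Subalgebra.mul_mem _ hu hu', ?_,
        v * u' * y + algebraMap ℂ K e * v' * u,
        Subalgebra.add_mem _ (Subalgebra.mul_mem _ (Subalgebra.mul_mem _ hv hu') hym)
          (Subalgebra.mul_mem _ (Subalgebra.mul_mem _ (Subalgebra.algebraMap_mem _ _) hv') hu), ?_⟩
      · intro hcon
        rcases nonunit_or_of_mul A (hRA _ hu) (hRA _ hu') hcon with h1 | h1
        · exact hun h1
        · exact hun' h1
      · rw [map_mul]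
        linear_combination u' * y * h + algebraMap ℂ K e * u * h'
  intro r hr hrn
  obtain ⟨e, u, hu, hun, v, hv, h⟩ := key r hr
  have h1 : (r - algebraMap ℂ K e) * u ∈ A.nonunits := by
    rw [h, mul_comm]
    exact nonunits_mul_mem A (hRA _ hv) ht
  have h2 : r - algebraMap ℂ K e ∈ A.nonunits := by
    rcases nonunit_or_of_mul A (A.toSubring.sub_mem (hRA _ hr) (hc e)) (hRA _ hu) h1 with h3 | h3
    · exact h3
    · exact absurd h3 hun
  have h3 : algebraMap ℂ K e ∈ A.nonunits := by
    have := A.nonunits.sub_mem hrn h2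
    rwa [sub_sub_cancel] at this
  have he : e = 0 := by
    by_contra he
    exact const_not_nonunit A hc he h3
  rw [he, map_zero, sub_zero] at h
  exact ⟨u, hu, hun, v, hv, h⟩

/-- Two valuation rings with the same centre on a chart. -/
theorem le_of_chart (A B : ValuationSubring K) (hcA : ∀ c : ℂ, algebraMap ℂ K c ∈ A)
    (hcB : ∀ c : ℂ, algebraMap ℂ K c ∈ B) (S : Set K) (hSA : ∀ s ∈ S, s ∈ A)
    (hSB : ∀ s ∈ S, s ∈ B)
    (hres : ∀ s ∈ S, ∃ c : ℂ, s - algebraMap ℂ K c ∈ A.nonunits ∧
      s - algebraMap ℂ K c ∈ B.nonunits)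
    (hA : ∀ a ∈ A, ∃ r ∈ Algebra.adjoin ℂ S, ∃ s ∈ Algebra.adjoin ℂ S, s ∉ A.nonunits ∧ a = r / s) :
    A ≤ B := by
  have hRA := adjoin_le A hcA S hSA
  have hRB := adjoin_le B hcB S hSB
  have key : ∀ r ∈ Algebra.adjoin ℂ S, ∃ e : ℂ, r - algebraMap ℂ K e ∈ A.nonunits ∧
      r - algebraMap ℂ K e ∈ B.nonunits := by
    intro r hr
    induction hr using Algebra.adjoin_induction with
    | mem x hx => exact hres x hx
    | algebraMap c =>
      refine ⟨c, ?_, ?_⟩
      · rw [sub_self]; exact A.nonunits.zero_mem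
      · rw [sub_self]; exact B.nonunits.zero_mem
    | add x y _ _ hx hy =>
      obtain ⟨e, h1, h2⟩ := hx
      obtain ⟨e', h1', h2'⟩ := hy
      refine ⟨e + e', ?_, ?_⟩
      · rw [map_add, add_sub_add_comm]; exact A.nonunits.add_mem h1 h1'
      · rw [map_add, add_sub_add_comm]; exact B.nonunits.add_mem h2 h2'
    | mul x y hxm hym hx hy =>
      obtain ⟨e, h1, h2⟩ := hx
      obtain ⟨e', h1', h2'⟩ := hy
      have h : x * y - algebraMap ℂ K (e * e') =
          y * (x - algebraMap ℂ K e) + algebraMap ℂ K e * (y - algebraMap ℂ K e') := by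
        rw [map_mul]; ring
      refine ⟨e * e', ?_, ?_⟩
      · rw [h]
        exact A.nonunits.add_mem (nonunits_mul_mem A (hRA _ hym) h1) (nonunits_mul_mem A (hcA e) h1')
      · rw [h]
        exact B.nonunits.add_mem (nonunits_mul_mem B (hRB _ hym) h2) (nonunits_mul_mem B (hcB e) h2')
  intro a ha
  obtain ⟨r, hr, s, hs, hsn, h⟩ := hA a ha
  have hsB : s ∉ B.nonunits := by
    intro hsB
    obtain ⟨e, h1, h2⟩ := key s hs
    have h3 : algebraMap ℂ K e ∈ B.nonunits := by
      have := B.nonunits.sub_mem hsB h2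
      rwa [sub_sub_cancel] at this
    have he : e = 0 := by
      by_contra he
      exact const_not_nonunit B hcB he h3
    rw [he, map_zero, sub_zero] at h1
    exact hsn h1
  rw [h, div_eq_mul_inv]
  exact B.mul_mem _ _ (hRB _ hr) (inv_mem_of_not_nonunit B hsB).2

end Pool.Agent.H.MP_d64a6e_ag
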