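import Mathlib

set_option autoImplicit false

/-!
Smooth projective curves over `ℂ` in the language of function fields: a smooth projective
(connected) curve is given by its function field `K`; its closed points are the valuation rings
`ℂ ⊆ O ≠ K` of `K` (the local rings of the curve), a nonconstant morphism of curves `S → E` is an
embedding `ℂ(E) → ℂ(S)` of function fields, the image of a point is the preimage of its local ring.
-/

namespace Pool.Agent.H.MP_d64a6e_ag

/-- `K` is the function field of a curve over `ℂ`: a finitely generated extension field of `ℂ` of
transcendence degree one. -/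
class CurveField (K : Type) [Field K] [Algebra ℂ K] : Prop where
  fg : (⊤ : IntermediateField ℂ K).FG
  trdeg : Algebra.trdeg ℂ K = 1

/-- The (closed) points of the smooth projective curve with function field `K`, given by their
local rings: the valuation rings `O` of `K` with `ℂ ⊆ O ≠ K`. -/
structure Point (K : Type) [Field K] [Algebra ℂ K] where
  /-- the local ring of the curve at the point -/
  ring : ValuationSubring K
  const : ∀ c : ℂ, algebraMap ℂ K c ∈ ring
  ne_top : ring ≠ ⊤

section general

variable {K : Type} [Field K] [Algebra ℂ K]

theorem mem_of_isIntegral (A : ValuationSubring K) (L : IntermediateField ℂ K)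
    (hL : ∀ z ∈ L, z ∈ A) (z : K) (hz : IsIntegral L z) : z ∈ A := by
  have h2 : IsIntegral A z := by
    obtain ⟨p, hp, hpz⟩ := hz
    refine ⟨p.map ((algebraMap L K).codRestrict A.toSubring (fun l => hL _ l.2)), hp.map _, ?_⟩
    rw [Polynomial.eval₂_map]
    exact hpz
  obtain ⟨y, hy⟩ := IsIntegrallyClosed.isIntegral_iff.1 h2
  rw [← hy]
  exact y.2

theorem eq_top_of_transcendental [CurveField K] (A : ValuationSubring K) (t : K)
    (ht : Transcendental ℂ t) (hA : ∀ z ∈ IntermediateField.adjoin ℂ {t}, z ∈ A) : A = ⊤ := by
  have hai : AlgebraicIndependent ℂ (fun _ : Unit => t) := by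
    rw [algebraicIndependent_unique_type_iff]
    exact ht
  have hb : IsTranscendenceBasis ℂ (fun _ : Unit => t) :=
    hai.isTranscendenceBasis_of_trdeg_le_of_finite (by rw [CurveField.trdeg]; simp)
  have halg : Algebra.IsAlgebraic (IntermediateField.adjoin ℂ {t}) K := by
    have := hb.isAlgebraic_field
    rwa [Set.range_const] at this
  ext z
  refine ⟨fun _ => trivial, fun _ => ?_⟩
  exact mem_of_isIntegral A _ hA z (halg.isAlgebraic z).isIntegral

theorem CurveField.exists_transcendental [CurveField K] : ∃ t : K, Transcendental ℂ t := by
  have h : Algebra.trdeg ℂ K ≠ 0 := by rw [CurveField.trdeg]; exact one_ne_zero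
  rw [trdeg_ne_zero_iff] at h
  exact h.transcendental

end general

variable {F K : Type} [Field F] [Algebra ℂ F] [Field K] [Algebra ℂ K]

/-- The image of a point `A` of the curve with function field `K` under the nonconstant morphism
given by the embedding `f : F → K` of function fields: its local ring is `f⁻¹(O_A)`. -/
def Point.map [CurveField F] [CurveField K] (f : F →ₐ[ℂ] K) (A : Point K) : Point F where
  ring := A.ring.comap f
  const := fun c => by
    rw [ValuationSubring.mem_comap]
    simpa using A.const c
  ne_top := by
    intro h
    obtain ⟨t, ht⟩ := CurveField.exists_transcendental (K := F)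
    refine A.ne_top (eq_top_of_transcendental A.ring (f t) ?_ ?_)
    · exact fun h' => ht ((isAlgebraic_algHom_iff f f.toRingHom.injective).1 h')
    · intro z hz
      rw [← Set.image_singleton, ← IntermediateField.adjoin_map] at hz
      obtain ⟨y, -, rfl⟩ := hz
      have : y ∈ A.ring.comap f := by rw [h]; trivial
      exact this

/-- A nonzero effective divisor `D` on the smooth projective curve with function field `F`, given
by a local equation `gen P ∈ Fˣ` at each point `P`: all `gen P` are regular at `P`, all but
finitely many are units of the local ring at `P`, and at least one is not a unit.  The same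
functions are the local generators of the line bundle `O(-D)`, their inverses those of `O(D)`.
On an elliptic curve the line bundles `O(D)`, `D` effective and nonzero, are exactly the line
bundles of degree `≥ 1`. -/
structure EffectiveDivisor (F : Type) [Field F] [Algebra ℂ F] where
  /-- local equation of the divisor at each point -/
  gen : Point F → Fˣ
  finite : {P | gen P ∉ P.ring.unitGroup}.Finite
  regular : ∀ P, (gen P : F) ∈ P.ring
  nonzero : ∃ P, gen P ∉ P.ring.unitGroup

/-- The local equations of the pullback `f^* D` of a divisor `D` with local equations `u P`:
at the point `A` of `S` it is the pullback of the local equation of `D` at the image of `A`. -/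
def pullback [CurveField F] [CurveField K] (f : F →ₐ[ℂ] K) (u : Point F → Fˣ) (A : Point K) : Kˣ :=
  Units.map (f : F →* K) (u (A.map f))

/-- The line bundle on the smooth projective curve with function field `K` given by local
generators `v A ∈ Kˣ` is torsion in the Picard group: some power `v ^ N`, `N ≥ 1`, is up to units
of the local rings given by one rational function `h⁻¹`. -/
def IsTorsion (v : Point K → Kˣ) : Prop :=
  ∃ N : ℕ, 0 < N ∧ ∃ h : Kˣ, ∀ A : Point K, v A ^ N * h ∈ A.ring.unitGroup

/-- The Kaehler differentials of `K` over `ℂ` that are regular at the point `A`: the module over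
the local ring `O_A` generated by the differentials `d b`, `b ∈ O_A`. -/
noncomputable def regularAt (A : Point K) : Submodule ℂ (Ω[K⁄ℂ]) :=
  Submodule.span ℂ {ω | ∃ a ∈ A.ring, ∃ b ∈ A.ring, ω = a • KaehlerDifferential.D ℂ K b}

/-- The space `H⁰(S, Ω¹)` of everywhere regular differentials of the smooth projective curve `S`
with function field `K`. -/
noncomputable def regularDifferentials (K : Type) [Field K] [Algebra ℂ K] :
    Submodule ℂ (Ω[K⁄ℂ]) :=
  ⨅ A : Point K, regularAt A

/-- The genus of the smooth projective curve with function field `K`: the dimension of the space
of everywhere regular differentials. -/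
noncomputable def genus (K : Type) [Field K] [Algebra ℂ K] : Cardinal :=
  Module.rank ℂ (regularDifferentials K)

/-- The morphism `(f 1, …, f n) : S → E ^ n` of the smooth projective curve `S` with function
field `K` to a power of the curve `E` with function field `F`, all of whose components are
nonconstant, is a closed immersion: it is injective on points, and surjective on local rings.
(The local ring of `E ^ n` at the image of `A` is the localization of the tensor product over `ℂ`
of the local rings `O_{E, f i (A)}` at its maximal ideal; its image in `K` consists of the
fractions `r / s` with `r`, `s` in the ring generated by the images of the `O_{E, f i (A)}` and `s`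
a unit at `A`.) -/
structure IsClosedImmersion [CurveField F] [CurveField K] {n : ℕ} (f : Fin n → (F →ₐ[ℂ] K)) :
    Prop where
  injective : ∀ A B : Point K, (∀ i, A.map (f i) = B.map (f i)) → A = B
  surjective_stalk : ∀ A : Point K, ∀ a ∈ A.ring,
    ∃ r ∈ Algebra.adjoin ℂ (⋃ i, f i '' ((A.map (f i)).ring : Set F)),
    ∃ s ∈ Algebra.adjoin ℂ (⋃ i, f i '' ((A.map (f i)).ring : Set F)),
      s ≠ 0 ∧ s⁻¹ ∈ A.ring ∧ a = r / s

end Pool.Agent.H.MP_d64a6e_ag
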