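import Pool.Agent.H.MP_d64a6e_ag.Chart

set_option autoImplicit false

namespace Pool.Agent.H.MP_d64a6e_ag

open Polynomial

set_option linter.unusedSectionVars false

variable {K : Type} [Field K] [Algebra ℂ K]

/-- A function without pole at `A` has a value at `A`. -/
theorem exists_value [CurveField K] (A : Point K) (x : K) (hx : Transcendental ℂ x)
    (hxA : x ∈ A.ring) : ∃ c : ℂ, x - algebraMap ℂ K c ∈ A.ring.nonunits := by
  by_contra hcon
  push Not at hcon
  have hunit : ∀ (n : ℕ) (q : ℂ[X]), q.natDegree = n → q ≠ 0 → aeval x q ∉ A.ring.nonunits ∧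
      aeval x q ∈ A.ring := by
    intro n
    induction n with
    | zero =>
      intro q hq hq0
      rw [natDegree_eq_zero] at hq
      obtain ⟨c, rfl⟩ := hq
      rw [aeval_C]
      refine ⟨const_not_nonunit A.ring A.const ?_, A.const c⟩
      rintro rfl
      simp at hq0
    | succ n ih =>
      intro q hq hq0
      obtain ⟨c, hc⟩ := IsAlgClosed.exists_root q (by
        rw [degree_eq_natDegree hq0, hq]
        exact_mod_cast Nat.succ_ne_zero n)
      obtain ⟨p, rfl⟩ := dvd_iff_isRoot.2 hc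
      have hp0 : p ≠ 0 := by
        rintro rfl
        simp at hq0
      have hdeg : p.natDegree = n := by
        rw [natDegree_mul (X_sub_C_ne_zero c) hp0, natDegree_X_sub_C] at hq
        omega
      obtain ⟨h1, h2⟩ := ih p hdeg hp0
      have hxc : x - algebraMap ℂ K c ∈ A.ring := A.ring.toSubring.sub_mem hxA (A.const c)
      rw [map_mul, map_sub, aeval_X, aeval_C]
      refine ⟨?_, A.ring.mul_mem _ _ hxc h2⟩
      intro h
      rcases nonunit_or_of_mul A.ring hxc h2 h with h | h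
      · exact hcon c h
      · exact h1 h
  refine A.ne_top (eq_top_of_transcendental A.ring x hx ?_)
  intro z hz
  rw [IntermediateField.mem_adjoin_simple_iff] at hz
  obtain ⟨r, s, rfl⟩ := hz
  by_cases hr : r = 0
  · rw [hr]; simpa using A.ring.zero_mem
  by_cases hs : s = 0
  · rw [hs]; simpa using A.ring.zero_mem
  rw [div_eq_mul_inv]
  exact A.ring.mul_mem _ _ (hunit _ r rfl hr).2 (inv_mem_of_not_nonunit _ (hunit _ s rfl hs).1).2

theorem mem_of_sq (A : ValuationSubring K) {y : K} (h : y ^ 2 ∈ A) : y ∈ A := by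
  rcases A.mem_or_inv_mem y with h1 | h1
  · exact h1
  · by_cases hy : y = 0
    · rw [hy]; exact A.zero_mem
    have : y = y ^ 2 * y⁻¹ := by field_simp
    rw [this]
    exact A.mul_mem _ _ h h1

theorem exists_value_of_sq (A : Point K) {y g : K} (h : y ^ 2 = g) {e : ℂ}
    (hg : g - algebraMap ℂ K e ∈ A.ring.nonunits) :
    ∃ b : ℂ, b ^ 2 = e ∧ y - algebraMap ℂ K b ∈ A.ring.nonunits := by
  obtain ⟨b, hb⟩ := IsAlgClosed.exists_pow_nat_eq e (n := 2) (by norm_num)
  have hgA : g ∈ A.ring := by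
    have := A.ring.add_mem _ _ (mem_of_nonunit _ hg) (A.const e)
    rwa [sub_add_cancel] at this
  have hyA : y ∈ A.ring := mem_of_sq A.ring (by rw [h]; exact hgA)
  have h1 : (y - algebraMap ℂ K b) * (y + algebraMap ℂ K b) ∈ A.ring.nonunits := by
    have : (y - algebraMap ℂ K b) * (y + algebraMap ℂ K b) = g - algebraMap ℂ K e := by
      rw [← h, ← hb, map_pow]; ring
    rw [this]; exact hg
  rcases nonunit_or_of_mul A.ring (A.ring.toSubring.sub_mem hyA (A.const b))
    (A.ring.add_mem _ _ hyA (A.const b)) h1 with h2 | h2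
  · exact ⟨b, hb, h2⟩
  · refine ⟨-b, by rw [neg_sq, hb], ?_⟩
    rw [map_neg, sub_neg_eq_add]
    exact h2

/-- evaluate a relation: if `u - e` is a nonunit and `e ≠ 0` then `u` is a unit -/
theorem not_nonunit_of_value (A : Point K) {u : K} {e : ℂ} (he : e ≠ 0)
    (hu : u - algebraMap ℂ K e ∈ A.ring.nonunits) : u ∉ A.ring.nonunits := by
  intro h
  have := A.ring.nonunits.sub_mem h hu
  rw [sub_sub_cancel] at this
  exact const_not_nonunit A.ring A.const he this

section V4

variable [CurveField K] (x y w : K) (hx : Transcendental ℂ x) (hy : y ^ 2 = x ^ 3 + 2)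
  (hw : w ^ 2 = x + 2 * x ^ 4)

include hy hw in
theorem V4_mem (A : Point K) (hxA : x ∈ A.ring) : y ∈ A.ring ∧ w ∈ A.ring := by
  have h2 : (2 : K) ∈ A.ring := by simpa using A.const 2
  constructor
  · apply mem_of_sq
    rw [hy]
    exact A.ring.add_mem _ _ (A.ring.toSubring.pow_mem hxA 3) h2
  · apply mem_of_sq
    rw [hw]
    exact A.ring.add_mem _ _ hxA (A.ring.mul_mem _ _ h2 (A.ring.toSubring.pow_mem hxA 4))

include hx hy hw in
theorem V4_values (A : Point K) (hxA : x ∈ A.ring) : ∃ c b d : ℂ, b ^ 2 = c ^ 3 + 2 ∧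
    d ^ 2 = c + 2 * c ^ 4 ∧ x - algebraMap ℂ K c ∈ A.ring.nonunits ∧
    y - algebraMap ℂ K b ∈ A.ring.nonunits ∧ w - algebraMap ℂ K d ∈ A.ring.nonunits := by
  obtain ⟨c, hc⟩ := exists_value A x hx hxA
  have h2 : (2 : K) ∈ A.ring := by simpa using A.const 2
  have hcA : algebraMap ℂ K c ∈ A.ring := A.const c
  obtain ⟨b, hb, hyb⟩ := exists_value_of_sq A hy (e := c ^ 3 + 2) (by
    have : x ^ 3 + 2 - algebraMap ℂ K (c ^ 3 + 2) =
        (x ^ 2 + x * algebraMap ℂ K c + algebraMap ℂ K c ^ 2) * (x - algebraMap ℂ K c) := by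
      rw [map_add, map_pow, map_ofNat]; ring
    rw [this]
    refine nonunits_mul_mem _ ?_ hc
    exact A.ring.add_mem _ _ (A.ring.add_mem _ _ (A.ring.toSubring.pow_mem hxA 2)
      (A.ring.mul_mem _ _ hxA hcA)) (A.ring.toSubring.pow_mem hcA 2))
  obtain ⟨d, hd, hwd⟩ := exists_value_of_sq A hw (e := c + 2 * c ^ 4) (by
    have : x + 2 * x ^ 4 - algebraMap ℂ K (c + 2 * c ^ 4) =
        (1 + 2 * (x ^ 3 + x ^ 2 * algebraMap ℂ K c + x * algebraMap ℂ K c ^ 2 +
          algebraMap ℂ K c ^ 3)) * (x - algebraMap ℂ K c) := by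
      rw [map_add, map_mul, map_pow, map_ofNat]; ring
    rw [this]
    refine nonunits_mul_mem _ ?_ hc
    refine A.ring.add_mem _ _ A.ring.one_mem (A.ring.mul_mem _ _ h2 ?_)
    refine A.ring.add_mem _ _ (A.ring.add_mem _ _ (A.ring.add_mem _ _ ?_ ?_) ?_) ?_
    · exact A.ring.toSubring.pow_mem hxA 3
    · exact A.ring.mul_mem _ _ (A.ring.toSubring.pow_mem hxA 2) hcA
    · exact A.ring.mul_mem _ _ hxA (A.ring.toSubring.pow_mem hcA 2)
    · exact A.ring.toSubring.pow_mem hcA 3)
  exact ⟨c, b, d, hb, hd, hc, hyb, hwd⟩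

include hx hy hw in
/-- The curve `y² = x³ + 2, w² = x + 2x⁴` is smooth: the local ring of a valuation ring centred
on it is a localization of its coordinate ring. -/
theorem V4_stalk (hgen : IntermediateField.adjoin ℂ ({x, y, w} : Set K) = ⊤) (A : Point K)
    (hxA : x ∈ A.ring) (a : K) (ha : a ∈ A.ring) :
    ∃ r ∈ Algebra.adjoin ℂ ({x, y, w} : Set K), ∃ s ∈ Algebra.adjoin ℂ ({x, y, w} : Set K),
      s ∉ A.ring.nonunits ∧ a = r / s := by
  obtain ⟨hyA, hwA⟩ := V4_mem x y w hy hw A hxA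
  obtain ⟨c, b, d, hb, hd, hxc, hyb, hwd⟩ := V4_values x y w hx hy hw A hxA
  have hS : ∀ s ∈ ({x, y, w} : Set K), s ∈ A.ring := by
    intro s hs
    simp only [Set.mem_insert_iff, Set.mem_singleton_iff] at hs
    rcases hs with rfl | rfl | rfl
    · exact hxA
    · exact hyA
    · exact hwA
  set R := Algebra.adjoin ℂ ({x, y, w} : Set K) with hR
  have hxR : x ∈ R := Algebra.subset_adjoin (by simp)
  have hyR : y ∈ R := Algebra.subset_adjoin (by simp)
  have hwR : w ∈ R := Algebra.subset_adjoin (by simp)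
  have hcR : ∀ e : ℂ, algebraMap ℂ K e ∈ R := fun e => Subalgebra.algebraMap_mem _ _
  have h2R : (2 : K) ∈ R := by simpa using hcR 2
  have hRA := adjoin_le A.ring A.const _ hS
  -- abbreviations
  set C := algebraMap ℂ K c with hC
  set B := algebraMap ℂ K b with hB
  set D := algebraMap ℂ K d with hD
  have hb' : B ^ 2 = C ^ 3 + 2 := by
    rw [hB, hC, ← map_pow, hb, map_add, map_pow, map_ofNat]
  have hd' : D ^ 2 = C + 2 * C ^ 4 := by
    rw [hD, hC, ← map_pow, hd, map_add, map_mul, map_pow, map_ofNat]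
  -- the two difference quotients
  have hp : x ^ 2 + x * C + C ^ 2 ∈ R :=
    R.add_mem (R.add_mem (R.pow_mem hxR 2) (R.mul_mem hxR (hcR c))) (R.pow_mem (hcR c) 2)
  have hq : 1 + 2 * (x ^ 3 + x ^ 2 * C + x * C ^ 2 + C ^ 3) ∈ R :=
    R.add_mem R.one_mem (R.mul_mem h2R (R.add_mem (R.add_mem (R.add_mem (R.pow_mem hxR 3)
      (R.mul_mem (R.pow_mem hxR 2) (hcR c))) (R.mul_mem hxR (R.pow_mem (hcR c) 2)))
      (R.pow_mem (hcR c) 3)))
  have hpv : x ^ 2 + x * C + C ^ 2 - algebraMap ℂ K (3 * c ^ 2) ∈ A.ring.nonunits := by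
    have : x ^ 2 + x * C + C ^ 2 - algebraMap ℂ K (3 * c ^ 2) = (x + 2 * C) * (x - C) := by
      rw [map_mul, map_pow, map_ofNat]; ring
    rw [this]
    exact nonunits_mul_mem _ (hRA _ (R.add_mem hxR (R.mul_mem h2R (hcR c)))) hxc
  have hqv : 1 + 2 * (x ^ 3 + x ^ 2 * C + x * C ^ 2 + C ^ 3) - algebraMap ℂ K (1 + 8 * c ^ 3)
      ∈ A.ring.nonunits := by
    have : 1 + 2 * (x ^ 3 + x ^ 2 * C + x * C ^ 2 + C ^ 3) - algebraMap ℂ K (1 + 8 * c ^ 3) =
        (2 * x ^ 2 + 4 * x * C + 6 * C ^ 2) * (x - C) := by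
      rw [map_add, map_mul, map_pow, map_ofNat, map_one]; ring
    rw [this]
    refine nonunits_mul_mem _ (hRA _ ?_) hxc
    have h4R : (4 : K) ∈ R := by simpa using hcR 4
    have h6R : (6 : K) ∈ R := by simpa using hcR 6
    exact R.add_mem (R.add_mem (R.mul_mem h2R (R.pow_mem hxR 2))
      (R.mul_mem (R.mul_mem h4R hxR) (hcR c))) (R.mul_mem h6R (R.pow_mem (hcR c) 2))
  have hyB : y + B - algebraMap ℂ K (2 * b) ∈ A.ring.nonunits := by
    have : y + B - algebraMap ℂ K (2 * b) = y - B := by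
      rw [map_mul, map_ofNat]; ring
    rw [this]; exact hyb
  have hwD : w + D - algebraMap ℂ K (2 * d) ∈ A.ring.nonunits := by
    have : w + D - algebraMap ℂ K (2 * d) = w - D := by
      rw [map_mul, map_ofNat]; ring
    rw [this]; exact hwd
  by_cases hb0 : b = 0
  · -- `t = y`
    have hB0 : B = 0 := by rw [hB, hb0, map_zero]
    have hc3 : c ^ 3 = -2 := by
      rw [hb0] at hb
      linear_combination -hb
    have hc0 : c ≠ 0 := by
      rintro rfl
      norm_num at hc3
    have hd0 : d ≠ 0 := by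
      rintro rfl
      apply hc0
      have : c + 2 * c * c ^ 3 = 0 := by linear_combination -hd
      rw [hc3] at this
      linear_combination (-1 / 3 : ℂ) * this
    have hpn := not_nonunit_of_value A (u := x ^ 2 + x * C + C ^ 2) (e := 3 * c ^ 2)
      (by simpa using hc0) hpv
    have hwn := not_nonunit_of_value A (u := w + D) (e := 2 * d) (by simpa using hd0) hwD
    refine exists_eq_div A.ring A.const _ (Set.toFinite _) hS hgen y hyR ?_ ?_ a ha
    · rwa [hB0, sub_zero] at hyb
    · intro s hs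
      simp only [Set.mem_insert_iff, Set.mem_singleton_iff] at hs
      rcases hs with rfl | rfl | rfl
      · refine ⟨c, _, hp, hpn, y, hyR, ?_⟩
        rw [hB0] at hb'
        linear_combination hb' - hy
      · refine ⟨0, 1, R.one_mem, ?_, 1, R.one_mem, by simp⟩
        simpa using const_not_nonunit A.ring A.const one_ne_zero
      · refine ⟨d, (s + D) * (x ^ 2 + x * C + C ^ 2), R.mul_mem (R.add_mem hwR (hcR d)) hp, ?_,
          (1 + 2 * (x ^ 3 + x ^ 2 * C + x * C ^ 2 + C ^ 3)) * y, R.mul_mem hq hyR, ?_⟩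
        · intro h
          rcases nonunit_or_of_mul A.ring (A.ring.add_mem _ _ hwA (A.const d)) (hRA _ hp) h
            with h | h
          · exact hwn h
          · exact hpn h
        · rw [hB0] at hb'
          linear_combination (x ^ 2 + x * C + C ^ 2) * (hw - hd') +
            (1 + 2 * (x ^ 3 + x ^ 2 * C + x * C ^ 2 + C ^ 3)) * (hb' - hy)
  by_cases hd0 : d = 0
  · -- `t = w`
    have hD0 : D = 0 := by rw [hD, hd0, map_zero]
    have hq0 : 1 + 8 * c ^ 3 ≠ 0 := by
      intro h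
      have h1 : c * (1 + 2 * c ^ 3) = 0 := by
        rw [hd0] at hd
        linear_combination -hd
      rcases mul_eq_zero.1 h1 with h2 | h2
      · rw [h2] at h
        norm_num at h
      · have : (3 : ℂ) = 0 := by linear_combination 4 * h2 - h
        norm_num at this
    have hqn := not_nonunit_of_value A (e := 1 + 8 * c ^ 3) hq0 hqv
    have hyn := not_nonunit_of_value A (u := y + B) (e := 2 * b) (by simpa using hb0) hyB
    refine exists_eq_div A.ring A.const _ (Set.toFinite _) hS hgen w hwR ?_ ?_ a ha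
    · rwa [hD0, sub_zero] at hwd
    · intro s hs
      simp only [Set.mem_insert_iff, Set.mem_singleton_iff] at hs
      rcases hs with rfl | rfl | rfl
      · refine ⟨c, _, hq, hqn, w, hwR, ?_⟩
        rw [hD0] at hd'
        linear_combination hd' - hw
      · refine ⟨b, (s + B) * (1 + 2 * (x ^ 3 + x ^ 2 * C + x * C ^ 2 + C ^ 3)),
          R.mul_mem (R.add_mem hyR (hcR b)) hq, ?_,
          (x ^ 2 + x * C + C ^ 2) * w, R.mul_mem hp hwR, ?_⟩
        · intro h
          rcases nonunit_or_of_mul A.ring (A.ring.add_mem _ _ hyA (A.const b)) (hRA _ hq) h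
            with h | h
          · exact hyn h
          · exact hqn h
        · rw [hD0] at hd'
          linear_combination (1 + 2 * (x ^ 3 + x ^ 2 * C + x * C ^ 2 + C ^ 3)) * (hy - hb') +
            (x ^ 2 + x * C + C ^ 2) * (hd' - hw)
      · refine ⟨0, 1, R.one_mem, ?_, 1, R.one_mem, by simp⟩
        simpa using const_not_nonunit A.ring A.const one_ne_zero
  -- `t = x - c`
  have hyn := not_nonunit_of_value A (u := y + B) (e := 2 * b) (by simpa using hb0) hyB
  have hwn := not_nonunit_of_value A (u := w + D) (e := 2 * d) (by simpa using hd0) hwD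
  refine exists_eq_div A.ring A.const _ (Set.toFinite _) hS hgen (x - C)
    (R.sub_mem hxR (hcR c)) hxc ?_ a ha
  intro s hs
  simp only [Set.mem_insert_iff, Set.mem_singleton_iff] at hs
  rcases hs with rfl | rfl | rfl
  · refine ⟨c, 1, R.one_mem, ?_, 1, R.one_mem, rfl⟩
    simpa using const_not_nonunit A.ring A.const one_ne_zero
  · refine ⟨b, s + B, R.add_mem hyR (hcR b), hyn, x ^ 2 + x * C + C ^ 2, hp, ?_⟩
    linear_combination hy - hb'
  · refine ⟨d, s + D, R.add_mem hwR (hcR d), hwn,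
      1 + 2 * (x ^ 3 + x ^ 2 * C + x * C ^ 2 + C ^ 3), hq, ?_⟩
    linear_combination hw - hd'

include hx hy hw in
/-- Points of the curve with the same coordinates are equal. -/
theorem V4_le (hgen : IntermediateField.adjoin ℂ ({x, y, w} : Set K) = ⊤) (A B : Point K)
    (hxA : x ∈ A.ring)
    (hxB : ∀ c : ℂ, x - algebraMap ℂ K c ∈ A.ring.nonunits →
      x - algebraMap ℂ K c ∈ B.ring.nonunits)
    (hyB : ∀ c : ℂ, y - algebraMap ℂ K c ∈ A.ring.nonunits →
      y - algebraMap ℂ K c ∈ B.ring.nonunits)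
    (hwB : ∀ c : ℂ, w - algebraMap ℂ K c ∈ A.ring.nonunits →
      w - algebraMap ℂ K c ∈ B.ring.nonunits) : A.ring ≤ B.ring := by
  obtain ⟨hyA, hwA⟩ := V4_mem x y w hy hw A hxA
  obtain ⟨c, b, d, hb, hd, hxc, hyb, hwd⟩ := V4_values x y w hx hy hw A hxA
  have hmem : ∀ (z : K) (e : ℂ), z - algebraMap ℂ K e ∈ B.ring.nonunits → z ∈ B.ring := by
    intro z e h
    have := B.ring.add_mem _ _ (mem_of_nonunit _ h) (B.const e)
    rwa [sub_add_cancel] at this
  refine le_of_chart A.ring B.ring A.const B.const ({x, y, w} : Set K) ?_ ?_ ?_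
    (V4_stalk x y w hx hy hw hgen A hxA)
  · intro s hs
    simp only [Set.mem_insert_iff, Set.mem_singleton_iff] at hs
    rcases hs with rfl | rfl | rfl
    · exact hxA
    · exact hyA
    · exact hwA
  · intro s hs
    simp only [Set.mem_insert_iff, Set.mem_singleton_iff] at hs
    rcases hs with rfl | rfl | rfl
    · exact hmem _ _ (hxB _ hxc)
    · exact hmem _ _ (hyB _ hyb)
    · exact hmem _ _ (hwB _ hwd)
  · intro s hs
    simp only [Set.mem_insert_iff, Set.mem_singleton_iff] at hs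
    rcases hs with rfl | rfl | rfl
    · exact ⟨c, hxc, hxB _ hxc⟩
    · exact ⟨b, hyb, hyB _ hyb⟩
    · exact ⟨d, hwd, hwB _ hwd⟩

end V4

end Pool.Agent.H.MP_d64a6e_ag
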