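import Pool.Agent.H.MP_d64a6e_ag.Weier
import Pool.Agent.H.MP_d64a6e_ag.V4

set_option autoImplicit false

namespace Pool.Agent.H.MP_d64a6e_ag

open Polynomial

/-- The elliptic curve `y² = x³ + 2`. -/
def E₂ : WeierstrassCurve ℂ := ⟨0, 0, 0, 0, 2⟩

instance : E₂.IsElliptic := by
  refine ⟨?_⟩
  rw [isUnit_iff_ne_zero]
  simp only [WeierstrassCurve.Δ, WeierstrassCurve.b₂, WeierstrassCurve.b₄, WeierstrassCurve.b₆,
    WeierstrassCurve.b₈, E₂]
  norm_num

/-- the function field of `E₂` -/
abbrev FE : Type := E₂.toAffine.FunctionField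

/-- the function `x` on `E₂` -/
noncomputable def xE : FE := algebraMap E₂.toAffine.CoordinateRing FE
  (AdjoinRoot.of E₂.toAffine.polynomial X)

/-- the function `y` on `E₂` -/
noncomputable def yE : FE := algebraMap E₂.toAffine.CoordinateRing FE
  (AdjoinRoot.root E₂.toAffine.polynomial)

theorem polynomial_E₂ : E₂.toAffine.polynomial = (X ^ 2 - C (X ^ 3 + C 2) : ℂ[X][X]) := by
  rw [WeierstrassCurve.Affine.polynomial]
  simp [E₂]

theorem yE_sq : yE ^ 2 = xE ^ 3 + 2 := by
  have h : AdjoinRoot.mk E₂.toAffine.polynomial E₂.toAffine.polynomial = 0 := AdjoinRoot.mk_self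
  have h2 : (AdjoinRoot.root E₂.toAffine.polynomial) ^ 2 =
      (AdjoinRoot.of E₂.toAffine.polynomial X) ^ 3 + 2 := by
    have h3 : AdjoinRoot.mk E₂.toAffine.polynomial (X ^ 2 - C (X ^ 3 + C 2) : ℂ[X][X]) = 0 := by
      rw [← polynomial_E₂]; exact h
    rw [map_sub, sub_eq_zero, map_pow, AdjoinRoot.mk_X, AdjoinRoot.mk_C, map_add, map_pow] at h3
    rw [h3]
    congr 1
  rw [yE, xE, ← map_pow, ← map_pow, h2, map_add, map_ofNat]

section embed

variable {K : Type} [Field K] [Algebra ℂ K] (a b : K) (ha : Transcendental ℂ a)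
  (hab : b ^ 2 = a ^ 3 + 2)

/-- evaluation of functions on the affine part of `E₂` at a `K`-valued point -/
noncomputable def evalE : E₂.toAffine.CoordinateRing →ₐ[ℂ] K :=
  AdjoinRoot.liftAlgHom E₂.toAffine.polynomial (aeval a) b (by
    rw [polynomial_E₂, eval₂_sub, eval₂_C, eval₂_pow, eval₂_X, hab]
    have h2 : algebraMap ℂ K 2 = 2 := map_ofNat _ 2
    simp [h2])

include ha in
theorem evalE_injective : Function.Injective (evalE a b hab) := by
  have h1 : Module.Finite ℂ[X] E₂.toAffine.CoordinateRing :=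
    Module.Finite.of_basis (WeierstrassCurve.Affine.CoordinateRing.basis E₂.toAffine)
  have h2 : Algebra.IsIntegral ℂ[X] E₂.toAffine.CoordinateRing := inferInstance
  rw [injective_iff_map_eq_zero]
  have hker : RingHom.ker (evalE a b hab).toRingHom = ⊥ := by
    apply Ideal.eq_bot_of_comap_eq_bot (R := ℂ[X])
    rw [eq_bot_iff]
    intro p hp
    rw [Ideal.mem_comap, RingHom.mem_ker] at hp
    have : (evalE a b hab).toRingHom (algebraMap ℂ[X] E₂.toAffine.CoordinateRing p) = aeval a p :=
      AdjoinRoot.liftAlgHom_of _ _ _ _ _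
    rw [this] at hp
    rw [Ideal.mem_bot]
    exact (transcendental_iff.1 ha) p hp
  intro u hu
  have : u ∈ RingHom.ker (evalE a b hab).toRingHom := hu
  rw [hker] at this
  exact this

/-- The embedding of `ℂ(E₂)` given by a nonconstant point. -/
noncomputable def emb : FE →ₐ[ℂ] K := IsFractionRing.liftAlgHom (evalE_injective a b ha hab)

theorem emb_x : emb a b ha hab xE = a := by
  rw [emb, xE, IsFractionRing.liftAlgHom_apply, IsFractionRing.lift_algebraMap]
  have : evalE a b hab (AdjoinRoot.of E₂.toAffine.polynomial X) = aeval a X :=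
    AdjoinRoot.liftAlgHom_of _ _ _ _ _
  exact this.trans (aeval_X a)

theorem emb_y : emb a b ha hab yE = b := by
  rw [emb, yE, IsFractionRing.liftAlgHom_apply, IsFractionRing.lift_algebraMap]
  exact AdjoinRoot.liftAlgHom_root _ _ _ _

end embed

end Pool.Agent.H.MP_d64a6e_ag
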