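import Pool.Agent.H.MP_d64a6e_ag.Defs

set_option autoImplicit false

namespace Pool.Agent.H.MP_d64a6e_ag

open Polynomial

/-- ambient algebraically closed field -/
abbrev Amb : Type := AlgebraicClosure (RatFunc ℂ)

/-- the coordinate `x` -/
noncomputable def x₀ : Amb := algebraMap (RatFunc ℂ) Amb RatFunc.X

theorem exists_y₀ : ∃ y : Amb, y ^ 2 = x₀ ^ 3 + 2 :=
  IsAlgClosed.exists_pow_nat_eq _ (by norm_num)

theorem exists_z₀ : ∃ z : Amb, z ^ 2 = (x₀⁻¹) ^ 3 + 2 :=
  IsAlgClosed.exists_pow_nat_eq _ (by norm_num)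

/-- a square root of `x³ + 2` -/
noncomputable def y₀ : Amb := exists_y₀.choose
/-- a square root of `x⁻³ + 2` -/
noncomputable def z₀ : Amb := exists_z₀.choose
theorem y₀_sq : y₀ ^ 2 = x₀ ^ 3 + 2 := exists_y₀.choose_spec
theorem z₀_sq : z₀ ^ 2 = (x₀⁻¹) ^ 3 + 2 := exists_z₀.choose_spec

/-- The function field `ℂ(x, y, z)` of the curve `S`: `y² = x³ + 2`, `z² = x⁻³ + 2`. -/
abbrev FS : Type := IntermediateField.adjoin (RatFunc ℂ) {y₀, z₀}

/-- the function `x` on `S` -/
noncomputable def xS : FS := algebraMap (RatFunc ℂ) FS RatFunc.X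
/-- the function `y` on `S` -/
noncomputable def yS : FS := ⟨y₀, IntermediateField.subset_adjoin _ _ (by simp)⟩
/-- the function `z` on `S` -/
noncomputable def zS : FS := ⟨z₀, IntermediateField.subset_adjoin _ _ (by simp)⟩

theorem yS_sq : yS ^ 2 = xS ^ 3 + 2 := by
  apply Subtype.ext
  exact y₀_sq

theorem zS_sq : zS ^ 2 = (xS⁻¹) ^ 3 + 2 := by
  apply Subtype.ext
  exact z₀_sq

instance : IsScalarTower ℂ ℂ[X] FS := by
  apply IsScalarTower.of_algebraMap_eq
  intro c
  rw [IsScalarTower.algebraMap_apply ℂ (RatFunc ℂ) FS,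
    IsScalarTower.algebraMap_apply ℂ[X] (RatFunc ℂ) FS,
    IsScalarTower.algebraMap_apply ℂ ℂ[X] (RatFunc ℂ)]

theorem algebraMap_poly (p : ℂ[X]) : algebraMap ℂ[X] FS p = aeval xS p := by
  have h : algebraMap ℂ[X] FS X = xS := by
    rw [IsScalarTower.algebraMap_apply ℂ[X] (RatFunc ℂ) FS, RatFunc.algebraMap_X]
    rfl
  rw [← h, aeval_algebraMap_apply, aeval_X_left_apply]

theorem algebraMap_poly_injective : Function.Injective (algebraMap ℂ[X] FS) := by
  rw [IsScalarTower.algebraMap_eq ℂ[X] (RatFunc ℂ) FS]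
  exact (algebraMap (RatFunc ℂ) FS).injective.comp (IsFractionRing.injective ℂ[X] (RatFunc ℂ))

theorem xS_transcendental : Transcendental ℂ xS := by
  rw [transcendental_iff]
  intro p hp
  rw [← algebraMap_poly] at hp
  exact (map_eq_zero_iff _ algebraMap_poly_injective).1 hp

theorem xS_ne_zero : xS ≠ 0 := by
  intro h
  apply xS_transcendental
  rw [h]
  exact isAlgebraic_zero

theorem xS_inv_transcendental : Transcendental ℂ (xS⁻¹) := by
  intro h
  apply xS_transcendental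
  simpa using h.inv

instance : Algebra.IsAlgebraic ℂ[X] FS := by
  have h0 : Algebra.IsAlgebraic ℂ[X] (RatFunc ℂ) := IsLocalization.isAlgebraic _ (nonZeroDivisors ℂ[X])
  exact Algebra.IsAlgebraic.trans ℂ[X] (RatFunc ℂ) FS

/-- `FS` is generated over `ℂ` by `x, y, z`. -/
theorem adjoin_xyz : IntermediateField.adjoin ℂ ({xS, yS, zS} : Set FS) = ⊤ := by
  set L := IntermediateField.adjoin ℂ ({xS, yS, zS} : Set FS) with hL
  have hxL : xS ∈ L := IntermediateField.subset_adjoin _ _ (by simp)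
  have hyL : yS ∈ L := IntermediateField.subset_adjoin _ _ (by simp)
  have hzL : zS ∈ L := IntermediateField.subset_adjoin _ _ (by simp)
  have hpL : ∀ p : ℂ[X], algebraMap ℂ[X] FS p ∈ L := by
    intro p
    rw [algebraMap_poly]
    have : aeval xS p = aeval ((⟨xS, hxL⟩ : L) : FS) p := rfl
    rw [this]
    have h2 : aeval ((⟨xS, hxL⟩ : L) : FS) p = ((aeval (⟨xS, hxL⟩ : L) p : L) : FS) := by
      exact aeval_algebraMap_apply (A := L) FS ⟨xS, hxL⟩ p
    rw [h2]
    exact Subtype.mem _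
  have hrL : ∀ r : RatFunc ℂ, algebraMap (RatFunc ℂ) FS r ∈ L := by
    intro r
    obtain ⟨p, q, hq, rfl⟩ := IsFractionRing.div_surjective (A := ℂ[X]) r
    rw [map_div₀, ← IsScalarTower.algebraMap_apply, ← IsScalarTower.algebraMap_apply]
    exact L.div_mem (hpL p) (hpL q)
  rw [eq_top_iff]
  rintro ⟨a, ha⟩ -
  have key : ∀ (a : Amb) (ha : a ∈ IntermediateField.adjoin (RatFunc ℂ) {y₀, z₀}),
      (⟨a, ha⟩ : FS) ∈ L := by
    intro a ha
    induction ha using IntermediateField.adjoin_induction with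
    | mem x hx =>
      simp only [Set.mem_insert_iff, Set.mem_singleton_iff] at hx
      rcases hx with rfl | rfl
      · exact hyL
      · exact hzL
    | algebraMap x => exact hrL x
    | add x y hx hy h1 h2 => exact L.add_mem h1 h2
    | inv x hx h1 => exact L.inv_mem h1
    | mul x y hx hy h1 h2 => exact L.mul_mem h1 h2
  exact key a ha

instance : CurveField FS where
  fg := by
    classical
    exact ⟨{xS, yS, zS}, by simpa using adjoin_xyz⟩
  trdeg := by
    have h4 : FaithfulSMul ℂ[X] FS :=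
      (faithfulSMul_iff_algebraMap_injective ℂ[X] FS).2 algebraMap_poly_injective
    have h5 := trdeg_add_eq ℂ ℂ[X] (A := FS)
    rw [← h5, Polynomial.trdeg_of_isDomain, trdeg_eq_zero, add_zero]

theorem adjoin_chart0 :
    IntermediateField.adjoin ℂ ({xS, yS, xS ^ 2 * zS} : Set FS) = ⊤ := by
  rw [eq_top_iff, ← adjoin_xyz, IntermediateField.adjoin_le_iff]
  set L := IntermediateField.adjoin ℂ ({xS, yS, xS ^ 2 * zS} : Set FS) with hL
  have hxL : xS ∈ L := IntermediateField.subset_adjoin _ _ (by simp)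
  have hyL : yS ∈ L := IntermediateField.subset_adjoin _ _ (by simp)
  have hwL : xS ^ 2 * zS ∈ L := IntermediateField.subset_adjoin _ _ (by simp)
  intro s hs
  simp only [Set.mem_insert_iff, Set.mem_singleton_iff] at hs
  rcases hs with rfl | rfl | rfl
  · exact hxL
  · exact hyL
  · have : zS = (xS ^ 2 * zS) / xS ^ 2 := by
      field_simp [xS_ne_zero]
    rw [SetLike.mem_coe, this]
    exact L.div_mem hwL (L.pow_mem hxL 2)

theorem adjoin_chart1 :
    IntermediateField.adjoin ℂ ({xS⁻¹, zS, (xS⁻¹) ^ 2 * yS} : Set FS) = ⊤ := by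
  rw [eq_top_iff, ← adjoin_xyz, IntermediateField.adjoin_le_iff]
  set L := IntermediateField.adjoin ℂ ({xS⁻¹, zS, (xS⁻¹) ^ 2 * yS} : Set FS) with hL
  have hxL : xS⁻¹ ∈ L := IntermediateField.subset_adjoin _ _ (by simp)
  have hxL' : xS ∈ L := by simpa using L.inv_mem hxL
  have hzL : zS ∈ L := IntermediateField.subset_adjoin _ _ (by simp)
  have hwL : (xS⁻¹) ^ 2 * yS ∈ L := IntermediateField.subset_adjoin _ _ (by simp)
  intro s hs
  simp only [Set.mem_insert_iff, Set.mem_singleton_iff] at hs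
  rcases hs with rfl | rfl | rfl
  · exact hxL'
  · have : yS = ((xS⁻¹) ^ 2 * yS) * xS ^ 2 := by
      field_simp [xS_ne_zero]
    rw [SetLike.mem_coe, this]
    exact L.mul_mem hwL (L.pow_mem hxL' 2)
  · exact hzL

theorem wS_sq : (xS ^ 2 * zS) ^ 2 = xS + 2 * xS ^ 4 := by
  have h := xS_ne_zero
  rw [mul_pow, zS_sq]
  field_simp

theorem wS_sq' : ((xS⁻¹) ^ 2 * yS) ^ 2 = xS⁻¹ + 2 * (xS⁻¹) ^ 4 := by
  have h := xS_ne_zero
  rw [mul_pow, yS_sq]
  field_simp

/-- `dx ≠ 0` -/
theorem D_xS_ne_zero : KaehlerDifferential.D ℂ FS xS ≠ 0 := by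
  have h1 : Algebra.FormallyEtale ℂ[X] (RatFunc ℂ) :=
    Algebra.FormallyEtale.of_isLocalization (nonZeroDivisors ℂ[X])
  have h2 : Algebra.FormallyEtale (RatFunc ℂ) FS := Algebra.FormallyEtale.of_isSeparable _ FS
  have h3 : Algebra.FormallyEtale ℂ[X] FS := Algebra.FormallyEtale.comp ℂ[X] (RatFunc ℂ) FS
  intro h
  have h4 := KaehlerDifferential.tensorKaehlerEquivOfFormallyEtale_symm_D_algebraMap ℂ ℂ[X] FS X
  have hX : algebraMap ℂ[X] FS X = xS := by rw [algebraMap_poly, aeval_X]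
  rw [hX, h, map_zero] at h4
  have h5 := congrArg (LinearMap.lTensor FS
    (KaehlerDifferential.polynomialEquiv ℂ).toLinearMap) h4
  rw [map_zero, LinearMap.lTensor_tmul] at h5
  have h6 := congrArg (TensorProduct.rid ℂ[X] FS) h5
  rw [map_zero] at h6
  simp at h6

end Pool.Agent.H.MP_d64a6e_ag
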