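import Pool.Agent.H.MP_d64a6e_ag.V4
import Pool.Agent.H.MP_d64a6e_ag.FieldS

set_option autoImplicit false
set_option linter.unusedSectionVars false

namespace Pool.Agent.H.MP_d64a6e_ag

open Polynomial

section regular

variable {K : Type} [Field K] [Algebra ℂ K]

theorem mem_regularAt (A : Point K) {a b : K} (ha : a ∈ A.ring) (hb : b ∈ A.ring) :
    a • KaehlerDifferential.D ℂ K b ∈ regularAt A :=
  Submodule.subset_span ⟨a, ha, b, hb, rfl⟩

theorem two_D (D : Derivation ℂ K (Ω[K⁄ℂ])) (y : K) : D (y ^ 2) = (2 * y) • D y := by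
  rw [D.leibniz_pow, ← Nat.cast_smul_eq_nsmul K, ← mul_smul]
  simp

theorem D_two (D : Derivation ℂ K (Ω[K⁄ℂ])) : D (2 : K) = 0 := by
  have := D.map_algebraMap (2 : ℂ)
  rwa [map_ofNat] at this

theorem D_cubic (D : Derivation ℂ K (Ω[K⁄ℂ])) (x : K) : D (x ^ 3 + 2) = (3 * x ^ 2) • D x := by
  rw [map_add, D_two, add_zero, D.leibniz_pow, ← Nat.cast_smul_eq_nsmul K, ← mul_smul]
  simp

theorem D_quartic (D : Derivation ℂ K (Ω[K⁄ℂ])) (s : K) :
    D (s + 2 * s ^ 4) = (1 + 8 * s ^ 3) • D s := by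
  rw [map_add, D.leibniz, D_two, smul_zero, add_zero, D.leibniz_pow, ← Nat.cast_smul_eq_nsmul K,
    ← mul_smul, ← mul_smul, add_smul, one_smul]
  congr 2
  push_cast
  ring

/-- The differential `dx / y` on `y² = x³ + 2` is regular at points with `x` finite. -/
theorem differential_regular_affine (A : Point K) (x y : K) (hy : y ^ 2 = x ^ 3 + 2)
    (hy0 : y ≠ 0) (hx0 : x ≠ 0) (hxA : x ∈ A.ring) :
    y⁻¹ • KaehlerDifferential.D ℂ K x ∈ regularAt A := by
  have hchar : CharZero K := charZero_of_injective_algebraMap (algebraMap ℂ K).injective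
  have h2 : (2 : K) ∈ A.ring := by simpa using A.const 2
  have h2n : (2 : K) ∉ A.ring.nonunits := by
    have := const_not_nonunit A.ring A.const (c := 2) two_ne_zero
    rwa [map_ofNat] at this
  have hyA : y ∈ A.ring := by
    apply mem_of_sq
    rw [hy]
    exact A.ring.add_mem _ _ (A.ring.toSubring.pow_mem hxA 3) h2
  by_cases hyn : y ∈ A.ring.nonunits
  · have hxn : x ∉ A.ring.nonunits := by
      intro hxn
      apply h2n
      have h1 : (2 : K) = y * y - x ^ 2 * x := by linear_combination -hy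
      rw [h1]
      exact A.ring.nonunits.sub_mem (nonunits_mul_mem _ hyA hyn)
        (nonunits_mul_mem _ (A.ring.toSubring.pow_mem hxA 2) hxn)
    have hxi := (inv_mem_of_not_nonunit _ hxn).2
    have h3 : (2 * y) • KaehlerDifferential.D ℂ K y =
        (3 * x ^ 2) • KaehlerDifferential.D ℂ K x := by
      rw [← two_D, hy, D_cubic]
    have h5 : y⁻¹ • KaehlerDifferential.D ℂ K x =
        (algebraMap ℂ K (2 / 3) * x⁻¹ ^ 2) • KaehlerDifferential.D ℂ K y := by
      have h6 : algebraMap ℂ K (2 / 3) = 2 / 3 := by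
        rw [map_div₀, map_ofNat, map_ofNat]
      rw [h6]
      have h7 : KaehlerDifferential.D ℂ K x =
          ((3 * x ^ 2)⁻¹ * (2 * y)) • KaehlerDifferential.D ℂ K y := by
        rw [mul_smul, h3, ← mul_smul, inv_mul_cancel₀ (by simp [hx0]), one_smul]
      rw [h7, ← mul_smul]
      congr 1
      field_simp
    rw [h5]
    exact mem_regularAt A (A.ring.mul_mem _ _ (A.const _) (A.ring.toSubring.pow_mem hxi 2)) hyA
  · exact mem_regularAt A (inv_mem_of_not_nonunit _ hyn).2 hxA

/-- The differential `dx / y` on `y² = x³ + 2` is regular at points with `x` infinite. -/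
theorem differential_regular_infinite (A : Point K) (s w : K) (hw2 : w ^ 2 = s + 2 * s ^ 4)
    (hw0 : w ≠ 0) (hs0 : s ≠ 0) (hsn : s ∈ A.ring.nonunits) :
    (w * (s ^ 2)⁻¹)⁻¹ • KaehlerDifferential.D ℂ K s⁻¹ ∈ regularAt A := by
  have h2 : (2 : K) ∈ A.ring := by simpa using A.const 2
  have hsA := mem_of_nonunit _ hsn
  have hwA : w ∈ A.ring := by
    apply mem_of_sq
    rw [hw2]
    exact A.ring.add_mem _ _ hsA (A.ring.mul_mem _ _ h2 (A.ring.toSubring.pow_mem hsA 4))
  have hun : 1 + 8 * s ^ 3 ∉ A.ring.nonunits := by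
    intro h
    have h8 : (8 : K) ∈ A.ring := by simpa using A.const 8
    have h1 : (8 * s ^ 2) * s ∈ A.ring.nonunits :=
      nonunits_mul_mem _ (A.ring.mul_mem _ _ h8 (A.ring.toSubring.pow_mem hsA 2)) hsn
    have h9 := A.ring.nonunits.sub_mem h h1
    have h10 : 1 + 8 * s ^ 3 - (8 * s ^ 2) * s = algebraMap ℂ K 1 := by
      rw [map_one]; ring
    rw [h10] at h9
    exact const_not_nonunit A.ring A.const one_ne_zero h9
  obtain ⟨hu0, huA⟩ := inv_mem_of_not_nonunit _ hun
  have h3 : (2 * w) • KaehlerDifferential.D ℂ K w =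
      (1 + 8 * s ^ 3) • KaehlerDifferential.D ℂ K s := by
    rw [← two_D, hw2, D_quartic]
  have h5 : (w * (s ^ 2)⁻¹)⁻¹ • KaehlerDifferential.D ℂ K s⁻¹ =
      (-2 * (1 + 8 * s ^ 3)⁻¹) • KaehlerDifferential.D ℂ K w := by
    have h13 : KaehlerDifferential.D ℂ K s =
        ((1 + 8 * s ^ 3)⁻¹ * (2 * w)) • KaehlerDifferential.D ℂ K w := by
      rw [mul_smul, h3, ← mul_smul, inv_mul_cancel₀ hu0, one_smul]
    rw [Derivation.leibniz_inv, h13, ← mul_smul, ← mul_smul]
    congr 1
    field_simp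
  rw [h5]
  refine mem_regularAt A (A.ring.mul_mem _ _ ?_ huA) hwA
  exact A.ring.neg_mem _ h2

/-- The differential `dx / y` on `y² = x³ + 2` is regular everywhere. -/
theorem differential_regular (A : Point K) (x y : K) (hy : y ^ 2 = x ^ 3 + 2)
    (hy0 : y ≠ 0) (hx0 : x ≠ 0) : y⁻¹ • KaehlerDifferential.D ℂ K x ∈ regularAt A := by
  by_cases hxA : x ∈ A.ring
  · exact differential_regular_affine A x y hy hy0 hx0 hxA
  · have hs0 : x⁻¹ ≠ 0 := inv_ne_zero hx0
    have hsn : x⁻¹ ∈ A.ring.nonunits := by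
      rw [ValuationSubring.inv_mem_nonunits_iff]
      exact Or.inr hxA
    have h := differential_regular_infinite A x⁻¹ (y * x⁻¹ ^ 2) (by
      rw [mul_pow, hy]
      field_simp) (mul_ne_zero hy0 (pow_ne_zero _ hs0)) hs0 hsn
    rwa [inv_inv, mul_assoc, mul_inv_cancel₀ (pow_ne_zero _ hs0), mul_one] at h

end regular

theorem yS_ne_zero : yS ≠ 0 := by
  intro h
  have h1 := yS_sq
  rw [h] at h1
  have h2 : aeval xS (X ^ 3 + C 2 : ℂ[X]) = 0 := by
    rw [map_add, map_pow, aeval_X, aeval_C, map_ofNat, ← h1]; ring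
  have h3 := (transcendental_iff.1 xS_transcendental) _ h2
  have h4 := congrArg (fun p : ℂ[X] => p.coeff 3) h3
  simp [coeff_X_pow, coeff_C] at h4

theorem zS_ne_zero : zS ≠ 0 := by
  intro h
  have h1 := zS_sq
  rw [h] at h1
  have h2 : aeval xS⁻¹ (X ^ 3 + C 2 : ℂ[X]) = 0 := by
    rw [map_add, map_pow, aeval_X, aeval_C, map_ofNat, ← h1]; ring
  have h3 := (transcendental_iff.1 xS_inv_transcendental) _ h2
  have h4 := congrArg (fun p : ℂ[X] => p.coeff 3) h3
  simp [coeff_X_pow, coeff_C] at h4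

/-- the two pullbacks of the invariant differential of `E₂` -/
noncomputable def ωS : Fin 2 → Ω[FS⁄ℂ] :=
  ![yS⁻¹ • KaehlerDifferential.D ℂ FS xS, zS⁻¹ • KaehlerDifferential.D ℂ FS xS⁻¹]

theorem ωS_mem (i : Fin 2) : ωS i ∈ regularDifferentials FS := by
  rw [regularDifferentials, Submodule.mem_iInf]
  intro A
  fin_cases i
  · exact differential_regular A xS yS yS_sq yS_ne_zero xS_ne_zero
  · exact differential_regular A xS⁻¹ zS zS_sq zS_ne_zero (inv_ne_zero xS_ne_zero)

theorem ωS_linearIndependent : LinearIndependent ℂ ωS := by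
  rw [ωS, LinearIndependent.pair_iff]
  intro s t hst
  have hx := xS_ne_zero
  have hy := yS_ne_zero
  have hz := zS_ne_zero
  rw [Derivation.leibniz_inv, ← algebraMap_smul FS s, ← algebraMap_smul FS t, ← mul_smul,
    ← mul_smul, ← mul_smul, ← add_smul] at hst
  rcases smul_eq_zero.1 hst with h | h
  · have h1 : algebraMap ℂ FS s * (xS ^ 2 * zS) = algebraMap ℂ FS t * yS := by
      field_simp at h
      linear_combination h
    have h2 : aeval xS (C (s ^ 2) * (X + C 2 * X ^ 4) - C (t ^ 2) * (X ^ 3 + C 2) : ℂ[X]) = 0 := by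
      simp only [map_sub, map_mul, map_add, map_pow, aeval_X, aeval_C, map_ofNat]
      have h3 := congrArg (fun u => u ^ 2) h1
      simp only [mul_pow] at h3
      have h4 := wS_sq
      rw [mul_pow] at h4
      linear_combination h3 - (algebraMap ℂ FS s) ^ 2 * h4 + (algebraMap ℂ FS t) ^ 2 * yS_sq
    have h3 := (transcendental_iff.1 xS_transcendental) _ h2
    have h4 := congrArg (fun p : ℂ[X] => p.eval 0) h3
    have h5 : t = 0 := by simpa using h4
    have h6 := congrArg (fun p : ℂ[X] => p.eval 1) h3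
    rw [h5] at h6
    have h7 : s = 0 := by
      simp at h6
      rcases h6 with h6 | h6
      · exact h6
      · norm_num at h6
    exact ⟨h7, h5⟩
  · exact absurd h D_xS_ne_zero

theorem two_le_genus : 2 ≤ genus FS := by
  have h : LinearIndependent ℂ (fun i : Fin 2 => (⟨ωS i, ωS_mem i⟩ : regularDifferentials FS)) := by
    apply LinearIndependent.of_comp (regularDifferentials FS).subtype
    exact ωS_linearIndependent
  have h2 := h.cardinal_le_rank
  simpa [genus] using h2

end Pool.Agent.H.MP_d64a6e_ag
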