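import Pool.Agent.H.MP_d64a6e_ag.EllF
import Pool.Agent.H.MP_d64a6e_ag.FieldS

set_option autoImplicit false

namespace Pool.Agent.H.MP_d64a6e_ag

open Polynomial

/-- The two projections `S → E₂`: `(x, y)` and `(1/x, z)`. -/
noncomputable def fS : Fin 2 → (FE →ₐ[ℂ] FS) :=
  ![emb xS yS xS_transcendental yS_sq, emb xS⁻¹ zS xS_inv_transcendental zS_sq]

theorem fS_0_x : fS 0 xE = xS := emb_x _ _ xS_transcendental yS_sq
theorem fS_0_y : fS 0 yE = yS := emb_y _ _ xS_transcendental yS_sq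
theorem fS_1_x : fS 1 xE = xS⁻¹ := emb_x _ _ xS_inv_transcendental zS_sq
theorem fS_1_y : fS 1 yE = zS := emb_y _ _ xS_inv_transcendental zS_sq

theorem fS_0_w : fS 0 ((xE ^ 2)⁻¹ * yE) = xS⁻¹ ^ 2 * yS := by
  rw [map_mul, map_inv₀, map_pow, fS_0_x, fS_0_y, inv_pow]

theorem fS_1_w : fS 1 ((xE ^ 2)⁻¹ * yE) = xS ^ 2 * zS := by
  rw [map_mul, map_inv₀, map_pow, fS_1_x, fS_1_y, inv_pow, inv_inv]

theorem mem_map_ring (f : FE →ₐ[ℂ] FS) (A : Point FS) (z : FE) :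
    z ∈ (A.map f).ring ↔ f z ∈ A.ring := Iff.rfl

theorem mem_map_nonunits (f : FE →ₐ[ℂ] FS) (A : Point FS) (z : FE) :
    z ∈ (A.map f).ring.nonunits ↔ f z ∈ A.ring.nonunits := by
  rw [ValuationSubring.mem_nonunits_iff_or, ValuationSubring.mem_nonunits_iff_or, mem_map_ring,
    map_inv₀, map_eq_zero_iff f f.toRingHom.injective]

theorem adjoin_le_adjoin (A : Point FS) (S : Set FS)
    (hS : ∀ s ∈ S, ∃ i, ∃ z : FE, fS i z = s ∧ s ∈ A.ring) :
    Algebra.adjoin ℂ S ≤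
      Algebra.adjoin ℂ (⋃ i, fS i '' ((A.map (fS i)).ring : Set FE)) := by
  apply Algebra.adjoin_mono
  intro s hs
  obtain ⟨i, z, hz, hsA⟩ := hS s hs
  rw [Set.mem_iUnion]
  exact ⟨i, z, by rw [SetLike.mem_coe, mem_map_ring, hz]; exact hsA, hz⟩

theorem fS_surjective_stalk (A : Point FS) (a : FS) (ha : a ∈ A.ring) :
    ∃ r ∈ Algebra.adjoin ℂ (⋃ i, fS i '' ((A.map (fS i)).ring : Set FE)),
    ∃ s ∈ Algebra.adjoin ℂ (⋃ i, fS i '' ((A.map (fS i)).ring : Set FE)),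
      s ≠ 0 ∧ s⁻¹ ∈ A.ring ∧ a = r / s := by
  rcases A.ring.mem_or_inv_mem xS with hx | hx
  · obtain ⟨hy, hw⟩ := V4_mem xS yS _ yS_sq wS_sq A hx
    obtain ⟨r, hr, s, hs, hsn, h⟩ := V4_stalk xS yS _ xS_transcendental yS_sq wS_sq
      adjoin_chart0 A hx a ha
    have hle := adjoin_le_adjoin A ({xS, yS, xS ^ 2 * zS} : Set FS) (by
      intro s hs
      simp only [Set.mem_insert_iff, Set.mem_singleton_iff] at hs
      rcases hs with rfl | rfl | rfl
      · exact ⟨0, xE, fS_0_x, hx⟩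
      · exact ⟨0, yE, fS_0_y, hy⟩
      · exact ⟨1, _, fS_1_w, hw⟩)
    exact ⟨r, hle hr, s, hle hs, (inv_mem_of_not_nonunit _ hsn).1,
      (inv_mem_of_not_nonunit _ hsn).2, h⟩
  · obtain ⟨hy, hw⟩ := V4_mem xS⁻¹ zS _ zS_sq wS_sq' A hx
    obtain ⟨r, hr, s, hs, hsn, h⟩ := V4_stalk xS⁻¹ zS _ xS_inv_transcendental zS_sq wS_sq'
      adjoin_chart1 A hx a ha
    have hle := adjoin_le_adjoin A ({xS⁻¹, zS, xS⁻¹ ^ 2 * yS} : Set FS) (by
      intro s hs
      simp only [Set.mem_insert_iff, Set.mem_singleton_iff] at hs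
      rcases hs with rfl | rfl | rfl
      · exact ⟨1, xE, fS_1_x, hx⟩
      · exact ⟨1, yE, fS_1_y, hy⟩
      · exact ⟨0, _, fS_0_w, hw⟩)
    exact ⟨r, hle hr, s, hle hs, (inv_mem_of_not_nonunit _ hsn).1,
      (inv_mem_of_not_nonunit _ hsn).2, h⟩

theorem fS_le (A B : Point FS) (h : ∀ i, A.map (fS i) = B.map (fS i)) : A.ring ≤ B.ring := by
  have key : ∀ (i : Fin 2) (z : FE) (c : ℂ), fS i z - algebraMap ℂ FS c ∈ A.ring.nonunits →
      fS i z - algebraMap ℂ FS c ∈ B.ring.nonunits := by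
    intro i z c hz
    have h1 : fS i (z - algebraMap ℂ FE c) = fS i z - algebraMap ℂ FS c := by
      rw [map_sub, AlgHom.commutes]
    rw [← h1, ← mem_map_nonunits] at hz ⊢
    rw [← h i]
    exact hz
  rcases A.ring.mem_or_inv_mem xS with hx | hx
  · refine V4_le xS yS _ xS_transcendental yS_sq wS_sq adjoin_chart0 A B hx ?_ ?_ ?_
    · intro c; rw [← fS_0_x]; exact key _ _ c
    · intro c; rw [← fS_0_y]; exact key _ _ c
    · intro c; rw [← fS_1_w]; exact key _ _ c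
  · refine V4_le xS⁻¹ zS _ xS_inv_transcendental zS_sq wS_sq' adjoin_chart1 A B hx ?_ ?_ ?_
    · intro c; rw [← fS_1_x]; exact key _ _ c
    · intro c; rw [← fS_1_y]; exact key _ _ c
    · intro c; rw [← fS_0_w]; exact key _ _ c

theorem fS_isClosedImmersion : IsClosedImmersion fS where
  injective := fun A B h => by
    have h1 := le_antisymm (fS_le A B h) (fS_le B A fun i => (h i).symm)
    cases A; cases B; cases h1; rfl
  surjective_stalk := fS_surjective_stalk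

end Pool.Agent.H.MP_d64a6e_ag
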