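import Pool.Agent.H.MP_d64a6e_ag.Defs
set_option autoImplicit false
namespace Pool.Agent.H.MP_d64a6e_ag
open Polynomial

instance weierstrass_curveField (W : WeierstrassCurve ℂ) : CurveField W.toAffine.FunctionField where
  fg := by
    have h1 : Algebra.FiniteType ℂ W.toAffine.CoordinateRing := by
      unfold WeierstrassCurve.Affine.CoordinateRing
      infer_instance
    have h2 : Algebra.EssFiniteType W.toAffine.CoordinateRing W.toAffine.FunctionField :=
      Algebra.EssFiniteType.of_isLocalization _ (nonZeroDivisors _)
    have h3 : Algebra.EssFiniteType ℂ W.toAffine.FunctionField :=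
      Algebra.EssFiniteType.comp ℂ W.toAffine.CoordinateRing _
    exact IntermediateField.fg_top ℂ _
  trdeg := by
    have h1 : Module.Finite ℂ[X] W.toAffine.CoordinateRing :=
      Module.Finite.of_basis (WeierstrassCurve.Affine.CoordinateRing.basis W.toAffine)
    have h2 : Algebra.IsAlgebraic ℂ[X] W.toAffine.CoordinateRing := inferInstance
    have h0 : Algebra.IsAlgebraic W.toAffine.CoordinateRing W.toAffine.FunctionField :=
      IsLocalization.isAlgebraic _ (nonZeroDivisors W.toAffine.CoordinateRing)
    have h3 : Algebra.IsAlgebraic ℂ[X] W.toAffine.FunctionField :=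
      Algebra.IsAlgebraic.trans ℂ[X] W.toAffine.CoordinateRing W.toAffine.FunctionField
    have h4 : FaithfulSMul ℂ[X] W.toAffine.FunctionField :=
      FaithfulSMul.trans ℂ[X] W.toAffine.CoordinateRing _
    have h5 := trdeg_add_eq ℂ ℂ[X] (A := W.toAffine.FunctionField)
    rw [← h5, Polynomial.trdeg_of_isDomain, trdeg_eq_zero, add_zero]
end Pool.Agent.H.MP_d64a6e_ag
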